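import Pool.Agent.Helper14.SquareFinite

/-!
# The lower bound `γ_3 ≥ 14/3`

Partial answer to Q1 of MP_f97382_co.
-/

set_option autoImplicit false

namespace Pool.Agent.Results.MP_f97382_co.CubicBound

open Pool.Agent.Helper14.Square

/-- There is a constant `C` with `M_3(D) ≥ (14/3) D - C` for all `D`. -/
theorem result : ∃ C : ℝ, ∀ D : ℕ, (14 / 3 : ℝ) * D - C ≤ M 3 D :=
  cubic_bound

end Pool.Agent.Results.MP_f97382_co.CubicBound
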