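import Pool.Agent.Helper14.SquareConic

/-!
# A lower bound for `M_k(D)` for every `k`

Partial answer to Q1 of MP_f97382_co.
-/

set_option autoImplicit false

namespace Pool.Agent.Results.MP_f97382_co.PrimePowerBound

open Pool.Agent.Helper14.Square

/-- For every `k` and every odd prime power `q ≤ 2k - 1` there is a constant `C` with
`M_k(D) ≥ (q(q-1)/(q+1)) D - C` for all `D`. -/
theorem result (k q : ℕ) (hq : IsPrimePow q) (hodd : Odd q) (hqk : q ≤ 2 * k - 1) :
    ∃ C : ℝ, ∀ D : ℕ, ((q : ℝ) * (q - 1) / (q + 1)) * D - C ≤ M k D :=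
  conic_bound k q hq hodd hqk

end Pool.Agent.Results.MP_f97382_co.PrimePowerBound
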