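import Pool.Agent.Helper32.LK.Final
import Pool.Agent.Helper48.SL.S6d

/-!
# The leading constants of `M_k(D)` and `M'_k(D)` up to `o(1)` as `k → ∞`

Partial answer to Q1 and Q2 of MP_f97382_co: for large `k` the leading constants are at most
`2k - 3/2 + η`, and at least `2k - 3/2 - 4/k` if `k` is a power of two.
-/

set_option autoImplicit false

namespace Pool.Agent.Results.MP_f97382_co.SharpConstant

open Pool.Agent.Helper14.Square Pool.Agent.Helper32.Sq

/-- For every `η > 0` there is `K` such that for every `k ≥ K` there is a constant `C` such that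
for all `D`: `M_k(D) ≤ M'_k(D) ≤ (2k - 3/2 + η) D + C` and, if `k` is a power of two,
`M_k(D) ≥ (2k - 3/2 - 4/k) D - C`. -/
theorem result (η : ℝ) (hη : 0 < η) : ∃ K : ℕ, ∀ k : ℕ, K ≤ k → ∃ C : ℝ, ∀ D : ℕ,
    (M k D : ℝ) ≤ M' k D ∧ (M' k D : ℝ) ≤ (2 * k - 3 / 2 + η) * D + C ∧
      ((∃ j : ℕ, k = 2 ^ j) → (2 * (k : ℝ) - 3 / 2 - 4 / k) * D - C ≤ M k D) := by
  obtain ⟨k0, h0⟩ := Pool.Agent.Helper32.LK.M_large η hη
  obtain ⟨J, hJ⟩ := Pool.Agent.Helper48.SL.sharp_lower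
  refine ⟨max k0 (2 ^ J), fun k hk => ?_⟩
  obtain ⟨C, hC⟩ := h0 k ((le_max_left _ _).trans hk)
  by_cases hj : ∃ j : ℕ, k = 2 ^ j
  · obtain ⟨j, rfl⟩ := hj
    have hJj : J ≤ j := by
      have h1 : 2 ^ J ≤ 2 ^ j := (le_max_right _ _).trans hk
      exact (Nat.pow_le_pow_iff_right (by norm_num)).1 h1
    obtain ⟨C', hC'⟩ := hJ j hJj
    refine ⟨max C C', fun D => ⟨(hC D).1, ?_, fun _ => ?_⟩⟩
    · exact (hC D).2.trans (by linarith [le_max_left C C'])
    · have h2 := hC' D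
      push_cast at h2 ⊢
      linarith [le_max_right C C']
  · exact ⟨C, fun D => ⟨(hC D).1, (hC D).2, fun h => absurd h hj⟩⟩

end Pool.Agent.Results.MP_f97382_co.SharpConstant
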