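import Pool.Agent.Helper32.Sq.Upper

/-!
# An upper bound for `M_k(D)` and `M'_k(D)` beyond the degeneracy bound

Partial answer to Q1 and Q2 of MP_f97382_co: the leading constant `2k - 1` is not optimal.
-/

set_option autoImplicit false

namespace Pool.Agent.Results.MP_f97382_co.SparseUpperBound

open Pool.Agent.Helper14.Square Pool.Agent.Helper32.Sq

/-- For every `k ≥ 2` there are `ε > 0` and `C` with
`M_k(D) ≤ M'_k(D) ≤ (2k - 1 - ε) D + C` for all `D`. -/
theorem result (k : ℕ) (hk : 2 ≤ k) : ∃ ε C : ℝ, 0 < ε ∧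
    ∀ D : ℕ, (M k D : ℝ) ≤ M' k D ∧ (M' k D : ℝ) ≤ (2 * k - 1 - ε) * D + C :=
  M_chain k hk

end Pool.Agent.Results.MP_f97382_co.SparseUpperBound
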